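import Pool.Agent.UX.Defs

/-!
The Cauchy matrix with two rows for each node: entries are not `0`, and square parts are invertible.
-/

set_option autoImplicit false

namespace Pool.Agent.UX

open Polynomial Finset Pool.Agent.UW

theorem cauchy_cast_inj {w p : ℕ} (hp : 3 * w ≤ p) {a b : ℕ} (ha : a < 3 * w) (hb : b < 3 * w)
    (h : (a : ZMod p) = (b : ZMod p)) : a = b := by
  have h' := (ZMod.natCast_eq_natCast_iff a b p).1 h
  exact Nat.ModEq.eq_of_lt_of_lt h' (lt_of_lt_of_le ha hp) (lt_of_lt_of_le hb hp)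

theorem row_lt {w : ℕ} (c : Bool) (v : Fin w) : 2 * (v : ℕ) + (if c then 1 else 0) < 2 * w := by
  have := v.2
  split_ifs <;> omega

theorem cauchy_sub_ne {w p : ℕ} (hp : 3 * w ≤ p) (c : Bool) (v u : Fin w) :
    (((2 * (v : ℕ) + (if c then 1 else 0) : ℕ) : ZMod p) - ((2 * w + (u : ℕ) : ℕ) : ZMod p)) ≠ 0 := by
  intro h
  have h1 := sub_eq_zero.1 h
  have h3 := row_lt c v
  have h2 := cauchy_cast_inj hp (by omega) (by have := u.2; omega) h1
  omega

theorem M_ne {w p : ℕ} [Fact p.Prime] (hp : 3 * w ≤ p) (c : Bool) (v u : Fin w) :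
    M w p c v u ≠ 0 := by
  unfold M
  exact inv_ne_zero (cauchy_sub_ne hp c v u)

/-- the sums of the nodes of `T` determine `2 |T|` values -/
theorem cauchy {w p : ℕ} [Fact p.Prime] (hp : 3 * w ≤ p) (T Y : Finset (Fin w))
    (hTY : Y.card ≤ 2 * T.card) (c : Fin w → ZMod p) (hc : ∀ u ∉ Y, c u = 0)
    (h : ∀ v ∈ T, lin2 w p v c = 0) : c = 0 := by
  classical
  set y : Fin w → ZMod p := fun u => ((2 * w + (u : ℕ) : ℕ) : ZMod p) with hy
  set x : Fin w × Bool → ZMod p := fun a => ((2 * (a.1 : ℕ) + (if a.2 then 1 else 0) : ℕ) : ZMod p)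
    with hx
  set f : (ZMod p)[X] := ∑ u ∈ Y, C (c u) * Lagrange.nodal (Y.erase u) y with hf
  set T2 : Finset (Fin w × Bool) := T ×ˢ (Finset.univ : Finset Bool) with hT2
  have hcard : T2.card = 2 * T.card := by
    rw [hT2, Finset.card_product, Finset.card_univ, Fintype.card_bool, mul_comm]
  have hdeg : f.degree < (T2.card : ℕ) := by
    rw [← mem_degreeLT]
    refine Submodule.sum_mem _ fun u hu => ?_
    rw [mem_degreeLT]
    have hpos : 0 < Y.card := Finset.card_pos.2 ⟨u, hu⟩
    calc (C (c u) * Lagrange.nodal (Y.erase u) y).degree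
        ≤ (C (c u)).degree + (Lagrange.nodal (Y.erase u) y).degree := degree_mul_le _ _
      _ ≤ 0 + ((Y.erase u).card : ℕ) := add_le_add degree_C_le (le_of_eq Lagrange.degree_nodal)
      _ = ((Y.card - 1 : ℕ) : WithBot ℕ) := by
          rw [zero_add, Finset.card_erase_of_mem hu]
      _ < (T2.card : ℕ) := by
          exact_mod_cast (by omega : Y.card - 1 < T2.card)
  have hxinj : Set.InjOn x (T2 : Set (Fin w × Bool)) := by
    rintro ⟨a, b⟩ _ ⟨a', b'⟩ _ hab
    have h1 := row_lt b a
    have h2 := row_lt b' a'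
    have h3 := cauchy_cast_inj (a := 2 * (a : ℕ) + (if b then 1 else 0))
      (b := 2 * (a' : ℕ) + (if b' then 1 else 0)) hp (by omega) (by omega) hab
    cases b <;> cases b' <;> simp at h3 ⊢ <;> omega
  have heval : ∀ a ∈ T2, f.eval (x a) = 0 := by
    rintro ⟨v, b⟩ ha
    have hv : v ∈ T := (Finset.mem_product.1 ha).1
    have hne : ∀ u, x (v, b) - y u ≠ 0 := fun u => cauchy_sub_ne hp b v u
    have e1 : f.eval (x (v, b)) =
        (∏ u ∈ Y, (x (v, b) - y u)) * ∑ u ∈ Y, (x (v, b) - y u)⁻¹ * c u := by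
      rw [hf, eval_finsetSum, Finset.mul_sum]
      refine Finset.sum_congr rfl fun u hu => ?_
      rw [eval_mul, eval_C, Lagrange.eval_nodal, ← Finset.mul_prod_erase Y _ hu]
      have := hne u
      field_simp
    have e2 : ∑ u ∈ Y, (x (v, b) - y u)⁻¹ * c u = ∑ u, M w p b v u * c u := by
      refine Finset.sum_subset (Finset.subset_univ Y) fun u _ hu => ?_
      rw [hc u hu, mul_zero]
    have e3 : ∑ u, M w p b v u * c u = 0 := by
      have h1 := h v hv
      cases b with
      | false => exact congrArg Prod.fst h1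
      | true => exact congrArg Prod.snd h1
    rw [e1, e2, e3, mul_zero]
  have hf0 : f = 0 := eq_zero_of_degree_lt_of_eval_index_eq_zero (v := x) T2 hxinj hdeg heval
  funext u
  by_cases hu : u ∈ Y
  · have h1 : f.eval (y u) = 0 := by rw [hf0, eval_zero]
    rw [hf, eval_finsetSum, Finset.sum_eq_single u] at h1
    · rw [eval_mul, eval_C, Lagrange.eval_nodal] at h1
      rcases mul_eq_zero.1 h1 with h2 | h2
      · exact h2
      · exfalso
        obtain ⟨u', hu', h3⟩ := Finset.prod_eq_zero_iff.1 h2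
        have h4 := sub_eq_zero.1 h3
        have h5 := cauchy_cast_inj hp (by have := u.2; omega) (by have := u'.2; omega) h4
        exact (Finset.ne_of_mem_erase hu') (Fin.ext (by omega))
    · intro u' hu' hne
      rw [eval_mul, Lagrange.eval_nodal]
      have : ∏ i ∈ Y.erase u', (y u - y i) = 0 :=
        Finset.prod_eq_zero (Finset.mem_erase.2 ⟨hne.symm, hu⟩) (sub_self _)
      rw [this, mul_zero]
    · intro hn
      exact absurd hu hn
  · exact hc u hu

/-- the same with the two sums written out -/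
theorem cauchy' {w p : ℕ} [Fact p.Prime] (hp : 3 * w ≤ p) (T Y : Finset (Fin w))
    (hTY : Y.card ≤ 2 * T.card) (c : Fin w → ZMod p) (hc : ∀ u ∉ Y, c u = 0)
    (h : ∀ v ∈ T, ∀ b, ∑ u, M w p b v u * c u = 0) : c = 0 :=
  cauchy hp T Y hTY c hc fun v hv => Prod.ext (h v hv false) (h v hv true)

end Pool.Agent.UX
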