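import Pool.Agent.UW.TDefs

/-!
Layered networks of tables with two arguments. Generic notions (programs, trees) are in `UW`.
-/

set_option autoImplicit false

namespace Pool.Agent.UX

open Pool.Agent.UW

/-- An entry: level (`0` at the bottom), node of the level, two arguments. -/
abbrev Entry (l w p : ℕ) : Type := Fin (l + 2) × Fin w × (ZMod p × ZMod p)

/-- Coefficients of the network: the Cauchy matrix `1 / ((2 v + c) - (2 w + u))` over `F_p`, with two
rows (`c = false`, `c = true`) for each node `v`. -/
def M (w p : ℕ) (c : Bool) (v u : Fin w) : ZMod p :=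
  (((2 * (v : ℕ) + (if c then 1 else 0) : ℕ) : ZMod p) - ((2 * w + (u : ℕ) : ℕ) : ZMod p))⁻¹

/-- One of the two sums of a node over the values `f` of the level below. -/
def lin (w p : ℕ) (c : Bool) (v : Fin w) (f : Fin w → ZMod p) : ZMod p := ∑ u, M w p c v u * f u

/-- Both sums. -/
def lin2 (w p : ℕ) (v : Fin w) (f : Fin w → ZMod p) : ZMod p × ZMod p :=
  (lin w p false v f, lin w p true v f)

/-- The values of the nodes for the tables `x`: level `0` takes the entry with arguments `0, 0`, level
`i + 1` the entry whose arguments are the two sums of the values of level `i`. -/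
def out {l w p : ℕ} (x : Entry l w p → ZMod p) (i : Fin (l + 2)) : Fin w → ZMod p :=
  Fin.induction (motive := fun _ => Fin w → ZMod p) (fun v => x (0, v, (0, 0)))
    (fun i prev v => x (i.succ, v, lin2 w p v prev)) i

/-- The arguments of a node. -/
def arg {l w p : ℕ} (x : Entry l w p → ZMod p) (i : Fin (l + 2)) : Fin w → ZMod p × ZMod p :=
  Fin.cases (fun _ => (0, 0)) (fun i v => lin2 w p v (out x i.castSucc)) i

/-- The relevant entries: the entries of the nodes of the levels `0, .., l` and of the root (node
`0` of the last level `l + 1`) at their arguments. -/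
def relevant {l w p : ℕ} (x : Entry l w p → ZMod p) : Set (Entry l w p) :=
  {e | e.2.2 = arg x e.1 e.2.1 ∧ (e.1 = Fin.last (l + 1) → (e.2.1 : ℕ) = 0)}

/-- The value of the root is not `0`. -/
def Yes {l w p : ℕ} (x : Entry l w p → ZMod p) : Prop :=
  ∃ v : Fin w, (v : ℕ) = 0 ∧ out x (Fin.last (l + 1)) v ≠ 0

/-- Arguments of a node for a labeling. -/
def argD {l w p : ℕ} (D : Lab l w p) (i : Fin (l + 2)) : Fin w → ZMod p × ZMod p :=
  Fin.cases (fun _ => (0, 0)) (fun i v => lin2 w p v (fun u => (D i.castSucc u : ZMod p))) i

/-- The input of a labeling: the entry of every node at its arguments is its label, all other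
entries are `0`. -/
def inp {l w p : ℕ} (D : Lab l w p) : Entry l w p → ZMod p :=
  fun e => if e.2.2 = argD D e.1 e.2.1 then (D e.1 e.2.1 : ZMod p) else 0

/-- The same input with the table of node `v` of level `l` (below the root) replaced by `0`. -/
def bad {l w p : ℕ} (D : Lab l w p) (v : Fin w) : Entry l w p → ZMod p :=
  fun e => if e.1 = (Fin.last l).castSucc ∧ e.2.1 = v then 0 else inp D e

variable {S : Type}

/-- On each input at most `A` accepting trees read more than `R` different irrelevant entries. -/
def FewWastefulTrees {l w p : ℕ} (B : Prog (Entry l w p) (ZMod p) S) (A R : ℕ) : Prop :=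
  ∀ x : Entry l w p → ZMod p,
    {T | AccTree B x T ∧ (R : ℕ∞) < (treads T \ relevant x).encard}.encard ≤ A

/-- `B` is right on `x`: if the value is not `0`, some accepting tree with less than `m` steps and
forks reads at most `r` different irrelevant entries; if it is `0`, there is no accepting tree. -/
def RightTree {l w p : ℕ} (B : Prog (Entry l w p) (ZMod p) S) (r m : ℕ)
    (x : Entry l w p → ZMod p) : Prop :=
  (Yes x ∧ ∃ T, AccTree B x T ∧ tsize T < m ∧ (treads T \ relevant x).encard ≤ r) ∨
  (¬ Yes x ∧ ∀ T, ¬ AccTree B x T)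

theorem lin_def (w p : ℕ) (c : Bool) (v : Fin w) (f : Fin w → ZMod p) :
    lin w p c v f = ∑ u, M w p c v u * f u := rfl

theorem out_zero {l w p : ℕ} (x : Entry l w p → ZMod p) (v : Fin w) :
    out x 0 v = x (0, v, (0, 0)) := rfl

theorem out_succ {l w p : ℕ} (x : Entry l w p → ZMod p) (i : Fin (l + 1)) (v : Fin w) :
    out x i.succ v = x (i.succ, v, lin2 w p v (out x i.castSucc)) := rfl

theorem arg_zero {l w p : ℕ} (x : Entry l w p → ZMod p) (v : Fin w) : arg x 0 v = (0, 0) := rfl

theorem arg_succ {l w p : ℕ} (x : Entry l w p → ZMod p) (i : Fin (l + 1)) (v : Fin w) :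
    arg x i.succ v = lin2 w p v (out x i.castSucc) := rfl

theorem argD_zero {l w p : ℕ} (D : Lab l w p) (v : Fin w) : argD D 0 v = (0, 0) := rfl

theorem argD_succ {l w p : ℕ} (D : Lab l w p) (i : Fin (l + 1)) (v : Fin w) :
    argD D i.succ v = lin2 w p v (fun u => (D i.castSucc u : ZMod p)) := rfl

end Pool.Agent.UX
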