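import Pool.Agent.UW.GDefs
import Pool.Agent.UX.Defs

/-!
The embedding of the networks of tables with two arguments into GEN.
-/

set_option autoImplicit false

namespace Pool.Agent.UX

open Pool.Agent.UW

/-- Elements: base, numbers of nodes, `lab i v z` = node `(i, v)` has value `z`, `par c i v j s` = the
sum `c` over `u ≤ j` for node `(i + 1, v)` is `s`, target. -/
inductive Elem (l w p : ℕ) : Type
  | b : Elem l w p
  | c (v : Fin w) : Elem l w p
  | lab (i : Fin (l + 2)) (v : Fin w) (z : ZMod p) : Elem l w p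
  | par (c : Bool) (i : Fin (l + 1)) (v : Fin w) (j : Fin w) (s : ZMod p) : Elem l w p
  | top : Elem l w p
  deriving DecidableEq

open Classical in
/-- The operation of the tables `x`. -/
noncomputable def gop {l w p : ℕ} (x : Entry l w p → ZMod p) : Elem l w p × Elem l w p → Elem l w p
  | (.b, .b) => if h : 0 < w then .c ⟨0, h⟩ else .b
  | (.b, .c v) => if h : (v : ℕ) + 1 < w then .c ⟨v + 1, h⟩ else .b
  | (.c v, .c v') => if v = v' then .lab 0 v (x (0, v, (0, 0))) else .b
  | (.lab i u z, .c v) =>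
      if h : (u : ℕ) = 0 ∧ (i : ℕ) < l + 1 ∧ ((i : ℕ) = l → (v : ℕ) = 0) then
        .par false ⟨i, h.2.1⟩ v u (M w p false v u * z) else .b
  | (.c v, .lab i u z) =>
      if h : (u : ℕ) = 0 ∧ (i : ℕ) < l + 1 ∧ ((i : ℕ) = l → (v : ℕ) = 0) then
        .par true ⟨i, h.2.1⟩ v u (M w p true v u * z) else .b
  | (.par c i v j s, .lab i' u z) =>
      if (i : ℕ) = (i' : ℕ) ∧ (u : ℕ) = j + 1 then .par c i v u (s + M w p c v u * z) else .b
  | (.par c i v j s, .par c' i' v' j' s') =>
      if c = false ∧ c' = true ∧ i = i' ∧ v = v' ∧ j = j' ∧ (j : ℕ) + 1 = w then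
        .lab i.succ v (x (i.succ, v, (s, s'))) else .b
  | (.lab i v z, .b) => if i = Fin.last (l + 1) ∧ (v : ℕ) = 0 ∧ z ≠ 0 then .top else .b
  | _ => .b

/-- The generated elements. -/
def Good {l w p : ℕ} (x : Entry l w p → ZMod p) : Elem l w p → Prop
  | .b => True
  | .c _ => True
  | .lab i v z => z = out x i v ∧ (i = Fin.last (l + 1) → (v : ℕ) = 0)
  | .par c i v j s => s = ∑ u ∈ Finset.univ.filter (fun u : Fin w => (u : ℕ) ≤ j),
      M w p c v u * out x i.castSucc u ∧ ((i : ℕ) = l → (v : ℕ) = 0)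
  | .top => Yes x

end Pool.Agent.UX
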