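import Pool.Agent.UX.GDefs

set_option autoImplicit false

namespace Pool.Agent.UX

open Pool.Agent.UW

/-- The elements as a sum of types. -/
def elemSum {l w p : ℕ} : Elem l w p →
    (Bool ⊕ Fin w) ⊕ ((Fin (l + 2) × Fin w × ZMod p) ⊕
      (Bool × Fin (l + 1) × Fin w × Fin w × ZMod p))
  | .b => Sum.inl (Sum.inl false)
  | .top => Sum.inl (Sum.inl true)
  | .c v => Sum.inl (Sum.inr v)
  | .lab i v z => Sum.inr (Sum.inl (i, v, z))
  | .par c i v j s => Sum.inr (Sum.inr (c, i, v, j, s))

theorem elemSum_inj {l w p : ℕ} : Function.Injective (elemSum (l := l) (w := w) (p := p)) := by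
  intro x y h
  cases x <;> cases y <;> simp_all [elemSum]

/-- The elements can be numbered, the base by `0`, the target by `1`. -/
theorem exists_embed (l w p n : ℕ) [NeZero p]
    (h : 2 + w + (l + 2) * w * p + 2 * ((l + 1) * w * w * p) ≤ n + 2) :
    ∃ e : Elem l w p → Fin (n + 2), Function.Injective e ∧ e .b = 0 ∧ e .top = 1 := by
  classical
  have hc : Fintype.card ((Bool ⊕ Fin w) ⊕
      ((Fin (l + 2) × Fin w × ZMod p) ⊕ (Bool × Fin (l + 1) × Fin w × Fin w × ZMod p))) ≤
      Fintype.card (Fin (n + 2)) := by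
    simp only [Fintype.card_sum, Fintype.card_prod, Fintype.card_fin, ZMod.card,
      Fintype.card_bool]
    refine le_trans (le_of_eq ?_) h
    ring
  obtain ⟨f⟩ := Function.Embedding.nonempty_of_card_le hc
  let g : Elem l w p → Fin (n + 2) := fun x => f (elemSum x)
  have hg : Function.Injective g := fun x y hxy => elemSum_inj (f.injective hxy)
  have h01 : (0 : Fin (n + 2)) ≠ 1 := by
    intro h0
    have := congrArg Fin.val h0
    simp at this
  let s1 : Equiv.Perm (Fin (n + 2)) := Equiv.swap (g .b) 0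
  have hb : s1 (g .b) = 0 := Equiv.swap_apply_left _ _
  have ht : s1 (g .top) ≠ 0 := by
    intro h0
    rw [← hb] at h0
    have h1 := hg (s1.injective h0)
    cases h1
  let s2 : Equiv.Perm (Fin (n + 2)) := Equiv.swap (s1 (g .top)) 1
  refine ⟨fun x => s2 (s1 (g x)), fun x y hxy => hg (s1.injective (s2.injective hxy)), ?_, ?_⟩
  · show s2 (s1 (g .b)) = 0
    rw [hb]
    exact Equiv.swap_apply_of_ne_of_ne ht.symm h01
  · exact Equiv.swap_apply_left _ _

end Pool.Agent.UX
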