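import Pool.Agent.UX.GDefs

/-!
Generated elements are good: they carry right values (tables with two arguments).
-/

set_option autoImplicit false

namespace Pool.Agent.UX

open Pool.Agent.UW

private theorem filter_zero {w : ℕ} (u : Fin w) (h : (u : ℕ) = 0) :
    (Finset.univ.filter fun u' : Fin w => (u' : ℕ) ≤ u) = {u} := by
  ext u'
  simp only [Finset.mem_filter, Finset.mem_univ, true_and, Finset.mem_singleton]
  constructor
  · intro h7
    exact Fin.ext (by omega)
  · rintro rfl
    exact le_rfl

private theorem filter_all {w : ℕ} (j : Fin w) (h : (j : ℕ) + 1 = w) :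
    (Finset.univ.filter fun u' : Fin w => (u' : ℕ) ≤ j) = Finset.univ := by
  ext u'
  simp only [Finset.mem_filter, Finset.mem_univ, true_and, iff_true]
  have := u'.isLt
  omega

private theorem good_first {l w p : ℕ} (x : Entry l w p → ZMod p) (cc : Bool) (i : Fin (l + 2))
    (u v : Fin w) (a : ZMod p) (hy : Good x (.lab i u a))
    (h : (u : ℕ) = 0 ∧ (i : ℕ) < l + 1 ∧ ((i : ℕ) = l → (v : ℕ) = 0)) :
    Good x (.par cc ⟨i, h.2.1⟩ v u (M w p cc v u * a)) := by
  obtain ⟨h4, -⟩ := hy
  refine ⟨?_, h.2.2⟩
  have h5 : (⟨(i : ℕ), h.2.1⟩ : Fin (l + 1)).castSucc = i := Fin.ext rfl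
  rw [filter_zero u h.1, Finset.sum_singleton, h5, h4]

private theorem good_step {l w p : ℕ} (x : Entry l w p → ZMod p) (y z : Elem l w p)
    (hy : Good x y) (hz : Good x z) : Good x (gop x (y, z)) := by
  cases y with
  | b =>
    cases z with
    | b => dsimp only [gop]; split_ifs <;> trivial
    | c v => dsimp only [gop]; split_ifs <;> trivial
    | lab i v z => trivial
    | par c i v j s => trivial
    | top => trivial
  | c v =>
    cases z with
    | b => trivial
    | c v' =>
      dsimp only [gop]
      split_ifs
      · refine ⟨rfl, fun h => ?_⟩
        exact absurd (congrArg Fin.val h) (by simp)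
      · trivial
    | lab i u a =>
      dsimp only [gop]
      split_ifs with h
      · exact good_first x true i u v a hz h
      · trivial
    | par c i v j s => trivial
    | top => trivial
  | lab i u a =>
    cases z with
    | b =>
      dsimp only [gop]
      split_ifs with h
      · obtain ⟨h1, h2, h3⟩ := h
        obtain ⟨h4, -⟩ := hy
        subst h1
        exact ⟨u, h2, fun h5 => h3 (h4.trans h5)⟩
      · trivial
    | c v =>
      dsimp only [gop]
      split_ifs with h
      · exact good_first x false i u v a hy h
      · trivial
    | lab i v z => trivial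
    | par c i v j s => trivial
    | top => trivial
  | par c i v j s =>
    cases z with
    | b => trivial
    | c v => trivial
    | lab i' u a =>
      dsimp only [gop]
      split_ifs with h
      · obtain ⟨h1, h2⟩ := h
        obtain ⟨h3, h4⟩ := hy
        obtain ⟨h5, -⟩ := hz
        have h6 : i.castSucc = i' := Fin.ext h1
        subst h6
        refine ⟨?_, h4⟩
        have h7 : (Finset.univ.filter fun u' : Fin w => (u' : ℕ) ≤ u) =
            insert u (Finset.univ.filter fun u' : Fin w => (u' : ℕ) ≤ j) := by
          ext u'
          simp only [Finset.mem_filter, Finset.mem_univ, true_and, Finset.mem_insert]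
          constructor
          · intro h7
            by_cases h8 : u' = u
            · exact Or.inl h8
            · refine Or.inr ?_
              have : (u' : ℕ) ≠ u := fun h9 => h8 (Fin.ext h9)
              omega
          · rintro (rfl | h7)
            · exact le_rfl
            · omega
        have h8 : u ∉ Finset.univ.filter fun u' : Fin w => (u' : ℕ) ≤ j := by
          simp only [Finset.mem_filter, Finset.mem_univ, true_and]
          omega
        rw [h7, Finset.sum_insert h8, h3, h5, add_comm]
      · trivial
    | par c' i' v' j' s' =>
      dsimp only [gop]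
      split_ifs with h
      · obtain ⟨h1, h1', h2, h3, h4, h5⟩ := h
        obtain ⟨h6, h7⟩ := hy
        obtain ⟨h6', -⟩ := hz
        subst h1 h1' h2 h3 h4
        rw [filter_all j h5] at h6 h6'
        refine ⟨?_, fun h9 => h7 ?_⟩
        · rw [out_succ, h6, h6']
          rfl
        · have := congrArg Fin.val h9
          simp at this
          exact this
      · trivial
    | top => trivial
  | top =>
    cases z <;> trivial

/-- G2: every generated element is good. -/
theorem good_of_gen {l w p : ℕ} (x : Entry l w p → ZMod p) (y : Elem l w p)
    (h : Gen (gop x) .b y) : Good x y := by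
  induction h with
  | base => trivial
  | op y z _ _ hy hz => exact good_step x y z hy hz

end Pool.Agent.UX
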