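import Pool.Agent.UX.GDefs

/-!
If the root has a value different from `0`, the base generates the target.
-/

set_option autoImplicit false

namespace Pool.Agent.UX

open Pool.Agent.UW

private theorem gen_c {l w p : ℕ} (x : Entry l w p → ZMod p) (n : ℕ) :
    ∀ h : n < w, Gen (gop x) .b (.c ⟨n, h⟩) := by
  induction n with
  | zero =>
    intro h
    have h1 : gop x (.b, .b) = .c ⟨0, h⟩ := by
      dsimp only [gop]
      rw [dif_pos h]
    rw [← h1]
    exact Gen.op _ _ Gen.base Gen.base
  | succ n ih =>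
    intro h
    have h0 : n < w := by omega
    have h1 : gop x (.b, .c ⟨n, h0⟩) = .c ⟨n + 1, h⟩ := by
      dsimp only [gop]
      rw [dif_pos h]
    rw [← h1]
    exact Gen.op _ _ Gen.base (ih h0)

private theorem gen_par {l w p : ℕ} (x : Entry l w p → ZMod p) (c : Bool) (i : Fin (l + 1))
    (v : Fin w) (hv : (i : ℕ) = l → (v : ℕ) = 0)
    (hlab : ∀ u : Fin w, Gen (gop x) .b (.lab i.castSucc u (out x i.castSucc u))) (n : ℕ) :
    ∀ h : n < w, Gen (gop x) .b (.par c i v ⟨n, h⟩
      (∑ u ∈ Finset.univ.filter (fun u : Fin w => (u : ℕ) ≤ n), M w p c v u * out x i.castSucc u)) := by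
  induction n with
  | zero =>
    intro h
    have h6 : (Finset.univ.filter fun u' : Fin w => (u' : ℕ) ≤ 0) = {⟨0, h⟩} := by
      ext u'
      simp only [Finset.mem_filter, Finset.mem_univ, true_and, Finset.mem_singleton]
      constructor
      · intro h7
        exact Fin.ext (by simpa using h7)
      · rintro rfl
        exact le_rfl
    rw [h6, Finset.sum_singleton]
    have h2 : ((⟨0, h⟩ : Fin w) : ℕ) = 0 ∧ ((i.castSucc : Fin (l + 2)) : ℕ) < l + 1 ∧
        (((i.castSucc : Fin (l + 2)) : ℕ) = l → (v : ℕ) = 0) := ⟨rfl, i.isLt, hv⟩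
    cases c with
    | false =>
      have h1 : gop x (.lab i.castSucc ⟨0, h⟩ (out x i.castSucc ⟨0, h⟩), .c v) =
          .par false i v ⟨0, h⟩ (M w p false v ⟨0, h⟩ * out x i.castSucc ⟨0, h⟩) := by
        dsimp only [gop]
        rw [dif_pos h2]
        rfl
      rw [← h1]
      exact Gen.op _ _ (hlab _) (gen_c x v v.isLt)
    | true =>
      have h1 : gop x (.c v, .lab i.castSucc ⟨0, h⟩ (out x i.castSucc ⟨0, h⟩)) =
          .par true i v ⟨0, h⟩ (M w p true v ⟨0, h⟩ * out x i.castSucc ⟨0, h⟩) := by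
        dsimp only [gop]
        rw [dif_pos h2]
        rfl
      rw [← h1]
      exact Gen.op _ _ (gen_c x v v.isLt) (hlab _)
  | succ n ih =>
    intro h
    have h0 : n < w := by omega
    have h7 : (Finset.univ.filter fun u' : Fin w => (u' : ℕ) ≤ n + 1) =
        insert (⟨n + 1, h⟩ : Fin w) (Finset.univ.filter fun u' : Fin w => (u' : ℕ) ≤ n) := by
      ext u'
      simp only [Finset.mem_filter, Finset.mem_univ, true_and, Finset.mem_insert]
      constructor
      · intro h7
        by_cases h8 : u' = ⟨n + 1, h⟩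
        · exact Or.inl h8
        · refine Or.inr ?_
          have : (u' : ℕ) ≠ n + 1 := fun h9 => h8 (Fin.ext h9)
          omega
      · rintro (rfl | h7)
        · exact le_rfl
        · omega
    have h8 : (⟨n + 1, h⟩ : Fin w) ∉ Finset.univ.filter fun u' : Fin w => (u' : ℕ) ≤ n := by
      simp only [Finset.mem_filter, Finset.mem_univ, true_and]
      omega
    rw [h7, Finset.sum_insert h8, add_comm (M w p c v ⟨n + 1, h⟩ * out x i.castSucc ⟨n + 1, h⟩)]
    have h2 : (i : ℕ) = ((i.castSucc : Fin (l + 2)) : ℕ) ∧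
        ((⟨n + 1, h⟩ : Fin w) : ℕ) = ((⟨n, h0⟩ : Fin w) : ℕ) + 1 := ⟨rfl, rfl⟩
    have h1 : gop x (.par c i v ⟨n, h0⟩ (∑ u ∈ Finset.univ.filter (fun u : Fin w => (u : ℕ) ≤ n),
        M w p c v u * out x i.castSucc u), .lab i.castSucc ⟨n + 1, h⟩ (out x i.castSucc ⟨n + 1, h⟩)) =
        .par c i v ⟨n + 1, h⟩ (∑ u ∈ Finset.univ.filter (fun u : Fin w => (u : ℕ) ≤ n),
          M w p c v u * out x i.castSucc u +
            M w p c v ⟨n + 1, h⟩ * out x i.castSucc ⟨n + 1, h⟩) := by
      dsimp only [gop]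
      rw [if_pos h2]
    rw [← h1]
    exact Gen.op _ _ (ih h0) (hlab _)

private theorem gen_lab {l w p : ℕ} (x : Entry l w p → ZMod p) (i : Fin (l + 2)) :
    ∀ v : Fin w, (i = Fin.last (l + 1) → (v : ℕ) = 0) →
      Gen (gop x) .b (.lab i v (out x i v)) := by
  refine Fin.induction ?_ (fun i ih => ?_) i
  · intro v _
    have h1 : gop x (.c v, .c v) = .lab 0 v (out x 0 v) := by
      dsimp only [gop]
      rw [if_pos rfl]
      rfl
    rw [← h1]
    exact Gen.op _ _ (gen_c x v v.isLt) (gen_c x v v.isLt)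
  · intro v hv
    have hw : 0 < w := lt_of_le_of_lt (Nat.zero_le _) v.isLt
    have hn : w - 1 < w := by omega
    have hlab : ∀ u : Fin w, Gen (gop x) .b (.lab i.castSucc u (out x i.castSucc u)) := fun u =>
      ih u fun h => by
        have h1 := congrArg Fin.val h
        simp only [Fin.val_castSucc, Fin.val_last] at h1
        have := i.isLt
        omega
    have hv' : (i : ℕ) = l → (v : ℕ) = 0 := fun h => hv (Fin.ext (by simp [h]))
    have h8 : (Finset.univ.filter fun u' : Fin w => (u' : ℕ) ≤ w - 1) = Finset.univ := by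
      ext u'
      simp only [Finset.mem_filter, Finset.mem_univ, true_and, iff_true]
      have := u'.isLt
      omega
    have h3 : ∀ c : Bool, Gen (gop x) .b (.par c i v ⟨w - 1, hn⟩ (lin w p c v (out x i.castSucc))) := by
      intro c
      have h3' := gen_par x c i v hv' hlab (w - 1) hn
      rw [h8] at h3'
      exact h3'
    have h4 : (false : Bool) = false ∧ (true : Bool) = true ∧ i = i ∧ v = v ∧
        (⟨w - 1, hn⟩ : Fin w) = ⟨w - 1, hn⟩ ∧
        ((⟨w - 1, hn⟩ : Fin w) : ℕ) + 1 = w := ⟨rfl, rfl, rfl, rfl, rfl, by simp only; omega⟩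
    have h1 : gop x (.par false i v ⟨w - 1, hn⟩ (lin w p false v (out x i.castSucc)),
        .par true i v ⟨w - 1, hn⟩ (lin w p true v (out x i.castSucc))) =
        .lab i.succ v (out x i.succ v) := by
      dsimp only [gop]
      rw [if_pos h4, out_succ]
      rfl
    rw [← h1]
    exact Gen.op _ _ (h3 false) (h3 true)

/-- G3: if the value of the root is not `0`, the target is generated. -/
theorem gen_top {l w p : ℕ} (x : Entry l w p → ZMod p) (h : Yes x) : Gen (gop x) .b .top := by
  obtain ⟨v, hv, h⟩ := h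
  have h2 : Fin.last (l + 1) = Fin.last (l + 1) ∧ (v : ℕ) = 0 ∧ out x (Fin.last (l + 1)) v ≠ 0 :=
    ⟨rfl, hv, h⟩
  have h1 : gop x (.lab (Fin.last (l + 1)) v (out x (Fin.last (l + 1)) v), .b) = .top := by
    dsimp only [gop]
    rw [if_pos h2]
  rw [← h1]
  exact Gen.op _ _ (gen_lab x _ v fun _ => hv) Gen.base

end Pool.Agent.UX
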