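import Mathlib

/-!
The numbers of the embedding, tables with two arguments.
-/

set_option autoImplicit false

namespace Pool.Agent.UX

theorem choose_params (l t R A r s n : ℕ) (hl : 0 < l) (ht : 0 < t)
    (hs : (A + 1) * (r + 1) ≤ s ^ 2)
    (hn : 2 ^ 26 * l * (t + R) ^ 2 * (t + R + s) ≤ n + 2) :
    ∃ w p : ℕ, p.Prime ∧ 128 * (t + R) ≤ w ∧ 3 * w ≤ p ∧
      144 * ((A + 1) * (2 * r + 1)) ≤ (p - 1) ^ 2 ∧
      2 + w + (l + 2) * w * p + 2 * ((l + 1) * w * w * p) ≤ n + 2 := by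
  obtain ⟨q, hq⟩ : ∃ q, q = t + R := ⟨_, rfl⟩
  rw [← hq] at hn
  rw [← hq]
  have hq1 : 1 ≤ q := by omega
  obtain ⟨p, hp, hp1, hp2⟩ := Nat.exists_prime_lt_and_le_two_mul (384 * q + 17 * s) (by omega)
  refine ⟨128 * q, p, hp, le_rfl, by omega, ?_, ?_⟩
  · have h1 : (A + 1) * (2 * r + 1) ≤ 2 * ((A + 1) * (r + 1)) := by
      calc (A + 1) * (2 * r + 1) ≤ (A + 1) * (2 * (r + 1)) := Nat.mul_le_mul_left _ (by omega)
        _ = 2 * ((A + 1) * (r + 1)) := by ring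
    have h2 : 17 * s ≤ p - 1 := by omega
    have h3 : (17 * s) ^ 2 ≤ (p - 1) ^ 2 := Nat.pow_le_pow_left h2 2
    have h4 : (17 * s) ^ 2 = 289 * s ^ 2 := by ring
    omega
  · obtain ⟨Q, hQ⟩ : ∃ Q, Q = q + s := ⟨_, rfl⟩
    rw [← hQ] at hn
    have hp3 : p ≤ 768 * Q := by omega
    have hQ1 : 1 ≤ Q := by omega
    have e0 : 2 ^ 26 * l * q ^ 2 * Q = 67108864 * (l * q ^ 2 * Q) := by ring
    rw [e0] at hn
    have e1 : 2 * ((l + 1) * (128 * q) * (128 * q) * p) ≤ 50331648 * (l * q ^ 2 * Q) := by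
      calc 2 * ((l + 1) * (128 * q) * (128 * q) * p)
          ≤ 2 * ((2 * l) * (128 * q) * (128 * q) * (768 * Q)) := by gcongr; omega
        _ = _ := by ring
    have e2 : (l + 2) * (128 * q) * p ≤ 294912 * (l * q ^ 2 * Q) := by
      calc (l + 2) * (128 * q) * p ≤ (3 * l) * (128 * q) * (768 * Q) := by gcongr; omega
        _ = 294912 * (l * (q * 1) * Q) := by ring
        _ ≤ 294912 * (l * (q * q) * Q) := by gcongr
        _ = _ := by ring
    have e3 : 2 + 128 * q ≤ 130 * (l * q ^ 2 * Q) := by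
      calc 2 + 128 * q ≤ 130 * (1 * (q * 1) * 1) := by omega
        _ ≤ 130 * (l * (q * q) * Q) := by gcongr; omega
        _ = _ := by ring
    omega

end Pool.Agent.UX
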