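import Pool.Agent.UX.GDefs

/-!
Translation of a program for GEN into a program for the networks, with the same states.
-/

set_option autoImplicit false

namespace Pool.Agent.UX

open Pool.Agent.UW

variable {l w p n : ℕ} {S : Type}

/-- The pair `y` whose product is the value of the entry `ε`. -/
def IsCell (ε : Entry l w p) (y : Elem l w p × Elem l w p) : Prop :=
  (ε.1 = 0 ∧ ε.2.2 = (0, 0) ∧ y = (.c ε.2.1, .c ε.2.1)) ∨
  (∃ (i : Fin (l + 1)) (j : Fin w), ε.1 = i.succ ∧ (j : ℕ) + 1 = w ∧
    y = (.par false i ε.2.1 j ε.2.2.1, .par true i ε.2.1 j ε.2.2.2))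

theorem gop_cell (x : Entry l w p → ZMod p) (ε : Entry l w p) (y : Elem l w p × Elem l w p)
    (h : IsCell ε y) : gop x y = .lab ε.1 ε.2.1 (x ε) := by
  obtain ⟨e1, e2, e3, e4⟩ := ε
  rcases h with ⟨h1, h2, h3⟩ | ⟨i, j, h1, h2, h3⟩
  · simp only at h1 h2 h3
    obtain ⟨h4, h5⟩ := Prod.mk.inj h2
    subst h1; subst h3; subst h4; subst h5
    simp [gop]
  · simp only at h1 h3
    subst h1; subst h3
    simp [gop, h2]

theorem isCell_inj (ε ε' : Entry l w p) (y : Elem l w p × Elem l w p) (h : IsCell ε y)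
    (h' : IsCell ε' y) : ε = ε' := by
  obtain ⟨e1, e2, e3, e4⟩ := ε
  obtain ⟨f1, f2, f3, f4⟩ := ε'
  rcases h with ⟨h1, h2, h3⟩ | ⟨i, j, h1, h2, h3⟩ <;> rcases h' with ⟨g1, g2, g3⟩ | ⟨i', j', g1, g2, g3⟩
  · simp only at h1 h2 h3 g1 g2 g3
    rw [h3] at g3
    have := Elem.c.inj (Prod.mk.inj g3).1
    rw [h1, g1, h2, g2, this]
  · rw [h3] at g3
    exact absurd (Prod.mk.inj g3).1 (by simp)
  · rw [h3] at g3
    exact absurd (Prod.mk.inj g3).1 (by simp)
  · simp only at h1 h3 g1 g3
    rw [h3] at g3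
    obtain ⟨k1, k2⟩ := Prod.mk.inj g3
    obtain ⟨-, a1, a2, a3, a4⟩ := Elem.par.inj k1
    obtain ⟨-, -, -, -, b4⟩ := Elem.par.inj k2
    rw [h1, g1, a1, a2, a4, b4]

/-- Outside the cells the operation does not depend on the tables. -/
theorem gop_const (x x' : Entry l w p → ZMod p) (a b : Elem l w p)
    (h : ∀ ε y, IsCell ε y → (a, b) ≠ y) : gop x (a, b) = gop x' (a, b) := by
  cases a <;> cases b <;> simp only [gop]
  · rename_i v v'
    split_ifs with hv
    · subst hv
      exact absurd rfl (h (0, v, (0, 0)) (.c v, .c v) (Or.inl ⟨rfl, rfl, rfl⟩))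
    · rfl
  · rename_i c i v j s c' i' v' j' s'
    split_ifs with hv
    · obtain ⟨rfl, rfl, rfl, rfl, rfl, hj⟩ := hv
      exact absurd rfl (h (i.succ, v, (s, s')) (.par false i v j s, .par true i v j s')
        (Or.inr ⟨i, j, rfl, hj, rfl⟩))
    · rfl

/-- The pair `q` of elements of `Fin (n + 2)` is the cell of the entry `ε` under `e`. -/
def IsPair (e : Elem l w p → Fin (n + 2)) (ε : Entry l w p) (q : Fin (n + 2) × Fin (n + 2)) : Prop :=
  ∃ y : Elem l w p × Elem l w p, IsCell ε y ∧ q = (e y.1, e y.2)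

open Classical in
/-- Translation of labels. -/
noncomputable def trL (e : Elem l w p → Fin (n + 2)) :
    Option ((Fin (n + 2) × Fin (n + 2)) × Set (Fin (n + 2))) → Option (Entry l w p × Set (ZMod p))
  | none => none
  | some (q, P) => if h : ∃ ε, IsPair e ε q then
      some (h.choose, {z | e (.lab h.choose.1 h.choose.2.1 z) ∈ P}) else none

/-- Translation of trees. -/
noncomputable def trT (e : Elem l w p → Fin (n + 2)) :
    Tree (Fin (n + 2) × Fin (n + 2)) (Fin (n + 2)) S → Tree (Entry l w p) (ZMod p) S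
  | .stop => .stop
  | .step lab s T => .step (trL e lab) s (trT e T)
  | .fork s s' T T' => .fork s s' (trT e T) (trT e T')

theorem tsize_trT (e : Elem l w p → Fin (n + 2))
    (T : Tree (Fin (n + 2) × Fin (n + 2)) (Fin (n + 2)) S) : tsize (trT e T) = tsize T := by
  induction T with
  | stop => rfl
  | step lab s T ih => simp [trT, tsize, ih]
  | fork s s' T T' ih ih' => simp [trT, tsize, ih, ih']

/-- Translation of programs: same states. A label which reads a pair that is no cell becomes free or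
disappears. -/
def pull (e : Elem l w p → Fin (n + 2)) (G : (Entry l w p → ZMod p) → Fin (n + 2) × Fin (n + 2) → Fin (n + 2))
    (B : Prog (Fin (n + 2) × Fin (n + 2)) (Fin (n + 2)) S) : Prog (Entry l w p) (ZMod p) S where
  start := B.start
  acc := B.acc
  edge q l' s := ∃ lab, B.edge q lab s ∧ trL e lab = l' ∧
    ∀ q' P, lab = some (q', P) → (¬ ∃ ε, IsPair e ε q') → ∃ x, G x q' ∈ P
  fork := B.fork

/-- What is needed of the instances `G x`. -/
structure Inst (e : Elem l w p → Fin (n + 2))
    (G : (Entry l w p → ZMod p) → Fin (n + 2) × Fin (n + 2) → Fin (n + 2)) : Prop where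
  inj : Function.Injective e
  cell : ∀ x ε q, IsPair e ε q → G x q = e (.lab ε.1 ε.2.1 (x ε))
  const : ∀ x x' q, (¬ ∃ ε, IsPair e ε q) → G x q = G x' q

theorem passes_trL {e : Elem l w p → Fin (n + 2)}
    {G : (Entry l w p → ZMod p) → Fin (n + 2) × Fin (n + 2) → Fin (n + 2)} (hG : Inst e G)
    (x : Entry l w p → ZMod p) (lab : Option ((Fin (n + 2) × Fin (n + 2)) × Set (Fin (n + 2)))) :
    Passes (G x) lab ↔ Passes x (trL e lab) ∧
      ∀ q' P, lab = some (q', P) → (¬ ∃ ε, IsPair e ε q') → ∃ x', G x' q' ∈ P := by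
  classical
  cases lab with
  | none =>
    constructor
    · intro _
      exact ⟨trivial, fun q' P h => by simp at h⟩
    · intro _; trivial
  | some qP =>
    obtain ⟨q, P⟩ := qP
    by_cases h : ∃ ε, IsPair e ε q
    · have e1 : trL e (some (q, P)) = some (h.choose, {z | e (.lab h.choose.1 h.choose.2.1 z) ∈ P}) := by
        exact dif_pos h
      rw [e1]
      constructor
      · intro hp
        refine ⟨?_, ?_⟩
        · show e (.lab h.choose.1 h.choose.2.1 (x h.choose)) ∈ P
          rw [← hG.cell x h.choose q h.choose_spec]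
          exact hp
        · intro q' P' heq hno
          obtain ⟨h1, h2⟩ := Prod.mk.inj (Option.some.inj heq)
          subst h1
          exact absurd h hno
      · rintro ⟨hp, _⟩
        show G x q ∈ P
        rw [hG.cell x h.choose q h.choose_spec]
        exact hp
    · have e1 : trL e (some (q, P)) = none := by
        exact dif_neg h
      rw [e1]
      constructor
      · intro hp
        refine ⟨trivial, ?_⟩
        intro q' P' heq hno
        obtain ⟨h1, h2⟩ := Prod.mk.inj (Option.some.inj heq)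
        subst h1; subst h2
        exact ⟨x, hp⟩
      · rintro ⟨_, hp⟩
        obtain ⟨x', hx'⟩ := hp q P rfl h
        show G x q ∈ P
        rw [hG.const x x' q h]
        exact hx'

theorem run_trT {e : Elem l w p → Fin (n + 2)}
    {G : (Entry l w p → ZMod p) → Fin (n + 2) × Fin (n + 2) → Fin (n + 2)} (hG : Inst e G)
    (B : Prog (Fin (n + 2) × Fin (n + 2)) (Fin (n + 2)) S) (x : Entry l w p → ZMod p) (q : S)
    (T : Tree (Fin (n + 2) × Fin (n + 2)) (Fin (n + 2)) S) (h : Run B (G x) q T) :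
    Run (pull e G B) x q (trT e T) := by
  induction T generalizing q with
  | stop => exact h
  | step lab s T ih =>
    obtain ⟨h1, h2, h3⟩ := h
    obtain ⟨h4, h5⟩ := (passes_trL hG x lab).1 h2
    exact ⟨⟨lab, h1, rfl, h5⟩, h4, ih s h3⟩
  | fork s s' T T' ih ih' =>
    obtain ⟨h1, h2, h3⟩ := h
    exact ⟨h1, ih s h2, ih' s' h3⟩

theorem run_pull {e : Elem l w p → Fin (n + 2)}
    {G : (Entry l w p → ZMod p) → Fin (n + 2) × Fin (n + 2) → Fin (n + 2)} (hG : Inst e G)
    (B : Prog (Fin (n + 2) × Fin (n + 2)) (Fin (n + 2)) S) (x : Entry l w p → ZMod p) (q : S)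
    (T' : Tree (Entry l w p) (ZMod p) S) (h : Run (pull e G B) x q T') :
    ∃ T, Run B (G x) q T ∧ trT e T = T' := by
  induction T' generalizing q with
  | stop => exact ⟨.stop, h, rfl⟩
  | step l' s T ih =>
    obtain ⟨⟨lab, h1, h2, h5⟩, h3, h4⟩ := h
    obtain ⟨T1, hT1, hT2⟩ := ih s h4
    subst h2
    exact ⟨.step lab s T1, ⟨h1, (passes_trL hG x lab).2 ⟨h3, h5⟩, hT1⟩, by rw [trT, hT2]⟩
  | fork s s' T T' ih ih' =>
    obtain ⟨h1, h2, h3⟩ := h
    obtain ⟨T1, hT1, hT2⟩ := ih s h2
    obtain ⟨T2, hT3, hT4⟩ := ih' s' h3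
    exact ⟨.fork s s' T1 T2, ⟨h1, hT1, hT3⟩, by rw [trT, hT2, hT4]⟩

theorem treads_trT (e : Elem l w p → Fin (n + 2))
    (T : Tree (Fin (n + 2) × Fin (n + 2)) (Fin (n + 2)) S) (ε : Entry l w p)
    (h : ε ∈ treads (trT e T)) : ∃ q ∈ treads T, IsPair e ε q := by
  classical
  induction T with
  | stop => exact absurd h (by simp [trT, treads])
  | step lab s T ih =>
    rcases h with h | h
    · cases lab with
      | none => exact absurd h (by simp [trL, lread])
      | some qP =>
        obtain ⟨q, P⟩ := qP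
        by_cases hq : ∃ ε, IsPair e ε q
        · have e1 : trL e (some (q, P)) =
              some (hq.choose, {z | e (.lab hq.choose.1 hq.choose.2.1 z) ∈ P}) := by
            exact dif_pos hq
          rw [e1] at h
          have h' : ε = hq.choose := h
          rw [h']
          exact ⟨q, Or.inl rfl, hq.choose_spec⟩
        · have e1 : trL e (some (q, P)) = none := by
            exact dif_neg hq
          rw [e1] at h
          exact absurd h (by simp [lread])
    · obtain ⟨q, hq, hq'⟩ := ih h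
      exact ⟨q, Or.inr hq, hq'⟩
  | fork s s' T T' ih ih' =>
    rcases h with h | h
    · obtain ⟨q, hq, hq'⟩ := ih h
      exact ⟨q, Or.inl hq, hq'⟩
    · obtain ⟨q, hq, hq'⟩ := ih' h
      exact ⟨q, Or.inr hq, hq'⟩

end Pool.Agent.UX
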