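import Pool.Agent.UX.Defs

/-! # Values of the nodes -/

set_option autoImplicit false

namespace Pool.Agent.UX

open Pool.Agent.UW

theorem out_eq {l w p : ℕ} (x : Entry l w p → ZMod p) (i : Fin (l + 2)) (v : Fin w) :
    out x i v = x (i, v, arg x i v) := by
  refine Fin.cases ?_ (fun i => ?_) i
  · rfl
  · rfl

private theorem inp_self {l w p : ℕ} (D : Lab l w p) (i : Fin (l + 2)) (v : Fin w) :
    inp D (i, v, argD D i v) = D i v := if_pos rfl

theorem out_inp {l w p : ℕ} (D : Lab l w p) (i : Fin (l + 2)) (v : Fin w) :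
    out (inp D) i v = D i v := by
  revert v
  refine Fin.induction ?_ (fun i ih => ?_) i
  · intro v
    exact inp_self D 0 v
  · intro v
    rw [out_succ]
    have h : lin2 w p v (out (inp D) i.castSucc) = argD D i.succ v :=
      congrArg (lin2 w p v) (funext fun u => ih u)
    rw [h]
    exact inp_self D i.succ v

theorem arg_inp {l w p : ℕ} (D : Lab l w p) (i : Fin (l + 2)) (v : Fin w) :
    arg (inp D) i v = argD D i v := by
  refine Fin.cases rfl (fun i => ?_) i
  rw [arg_succ, argD_succ]
  exact congrArg (lin2 w p v) (funext fun u => out_inp D _ u)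

theorem yes_inp {l w p : ℕ} [Fact p.Prime] (hw : 0 < w) (D : Lab l w p) : Yes (inp D) :=
  ⟨⟨0, hw⟩, rfl, by
    rw [out_inp]
    exact (D (Fin.last (l + 1)) ⟨0, hw⟩).ne_zero⟩

private theorem M_ne_zero {w p : ℕ} [Fact p.Prime] (hp : 3 * w ≤ p) (c : Bool) (v u : Fin w) :
    M w p c v u ≠ 0 := by
  unfold M
  refine inv_ne_zero fun h => ?_
  have h1 := sub_eq_zero.1 h
  rw [ZMod.natCast_eq_natCast_iff'] at h1
  have hv := v.isLt
  have hu := u.isLt
  have hc : (if c = true then 1 else 0 : ℕ) ≤ 1 := by
    split_ifs <;> omega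
  rw [Nat.mod_eq_of_lt (by omega), Nat.mod_eq_of_lt (by omega)] at h1
  omega

/-- below the last two levels, the values for `bad D v` are the labels -/
private theorem out_bad {l w p : ℕ} (D : Lab l w p) (v : Fin w) (i : Fin (l + 2)) :
    (i : ℕ) < l → ∀ u, out (bad D v) i u = D i u := by
  refine Fin.induction ?_ (fun i ih => ?_) i
  · intro h0 u
    rw [out_zero]
    unfold bad
    rw [if_neg]
    · exact inp_self D 0 u
    · rintro ⟨h, -⟩
      have h1 := congrArg Fin.val h
      simp at h1
      simp at h0
      omega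
  · intro h0 u
    have h1 : ((i.castSucc : Fin (l + 2)) : ℕ) < l := by
      rw [Fin.val_succ] at h0
      rw [Fin.val_castSucc]
      omega
    rw [out_succ]
    have h : lin2 w p u (out (bad D v) i.castSucc) = argD D i.succ u :=
      congrArg (lin2 w p u) (funext fun u' => ih h1 u')
    rw [h]
    unfold bad
    rw [if_neg]
    · exact inp_self D i.succ u
    · rintro ⟨h2, -⟩
      have h3 := congrArg Fin.val h2
      change ((i.succ : Fin (l + 2)) : ℕ) = _ at h3
      rw [Fin.val_castSucc, Fin.val_last] at h3
      omega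

private theorem out_bad_last {l w p : ℕ} (D : Lab l w p) (v u : Fin w) :
    out (bad D v) (Fin.last l).castSucc u = if u = v then 0 else
      (D (Fin.last l).castSucc u : ZMod p) := by
  have harg : arg (bad D v) (Fin.last l).castSucc u = argD D (Fin.last l).castSucc u := by
    rcases l with _ | l
    · rfl
    · have e : (Fin.last (l + 1)).castSucc = (Fin.last l).castSucc.succ := rfl
      rw [e, arg_succ, argD_succ]
      refine congrArg (lin2 w p u) (funext fun u' => ?_)
      exact out_bad D v _ (by simp) u'
  rw [out_eq, harg]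
  unfold bad
  by_cases h : u = v
  · rw [if_pos ⟨rfl, h⟩, if_pos h]
  · rw [if_neg fun h1 => h h1.2, if_neg h]
    exact inp_self D _ u

theorem not_yes_bad {l w p : ℕ} [Fact p.Prime] (hp : 3 * w ≤ p) (D : Lab l w p) (v : Fin w) :
    ¬ Yes (bad D v) := by
  rintro ⟨v0, -, h⟩
  refine h ?_
  have e : Fin.last (l + 1) = (Fin.last l).succ := rfl
  rw [e, out_succ]
  have hsum : lin w p false v0 (out (bad D v) (Fin.last l).castSucc) =
      lin w p false v0 (fun u => (D (Fin.last l).castSucc u : ZMod p)) -
        M w p false v0 v * (D (Fin.last l).castSucc v : ZMod p) := by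
    rw [lin_def, lin_def, eq_sub_iff_add_eq, ← Finset.add_sum_erase _ _ (Finset.mem_univ v),
      ← Finset.add_sum_erase
        (f := fun u => M w p false v0 u * (D (Fin.last l).castSucc u : ZMod p)) _
        (Finset.mem_univ v), out_bad_last, if_pos rfl, mul_zero, zero_add, add_comm]
    refine congrArg₂ _ rfl (Finset.sum_congr rfl fun u hu => ?_)
    rw [out_bad_last, if_neg (Finset.ne_of_mem_erase hu)]
  unfold bad
  rw [if_neg]
  · unfold inp
    rw [if_neg]
    change lin2 w p v0 (out (bad D v) (Fin.last l).castSucc) ≠ argD D (Fin.last l).succ v0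
    intro h0
    have h1 := congrArg Prod.fst h0
    change lin w p false v0 (out (bad D v) (Fin.last l).castSucc) =
      lin w p false v0 (fun u => (D (Fin.last l).castSucc u : ZMod p)) at h1
    rw [hsum, sub_eq_self] at h1
    rcases mul_eq_zero.1 h1 with h2 | h2
    · exact M_ne_zero hp false v0 v h2
    · exact (D (Fin.last l).castSucc v).ne_zero h2
  · rintro ⟨h1, -⟩
    have h2 := congrArg Fin.val h1
    change (((Fin.last l).succ : Fin (l + 2)) : ℕ) = _ at h2
    rw [Fin.val_castSucc, Fin.val_succ] at h2
    omega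

end Pool.Agent.UX
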